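import Pool.Agent.Lib.MP_7fdaab_ag.Heis.Sharp

/-!
MP_7fdaab_ag, Q1 for systems which are symmetric under a Heisenberg group.

A quadratic map `φ : C^(2^k) → C^r`, `k ≥ 1`, without nonzero real values whose real span of
components is stable under the Heisenberg group of `F_2^k` (translations of the coordinates and the
sign changes by characters) exists if and only if `3 * 2^k ≤ 2 r`.
-/

namespace Pool.Agent.Results.MP_7fdaab_ag.HeisenbergSymmetric

open Pool.Agent.Lib.MP_7fdaab_ag.Heis

theorem result (k r : ℕ) (hk : 1 ≤ k) :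
    (∃ φ : Fin r → QuadraticForm ℂ (Idx k → ℂ), HeisenbergInvariant φ ∧ NoRealValue φ) ↔
      3 * 2 ^ k ≤ 2 * r := by
  constructor
  · rintro ⟨φ, hφ, hno⟩
    exact lower_bound φ hφ hno
  · intro h
    obtain ⟨n, rfl⟩ : ∃ n, k = n + 1 := ⟨k - 1, by omega⟩
    have hr : 3 * 2 ^ n ≤ r := by
      rw [pow_succ] at h; omega
    exact ⟨pad (exHeis n) r, ⟨fun a => pad_inv _ hr _ ((exHeis_inv n).1 a),
      fun b => pad_inv _ hr _ ((exHeis_inv n).2 b)⟩, pad_no _ hr (exHeis_no n)⟩

end Pool.Agent.Results.MP_7fdaab_ag.HeisenbergSymmetric
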