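import Pool.Agent.Lib.MP_7fdaab_ag.PermOrb

/-!
MP_7fdaab_ag, Q1 for systems which are symmetric under a large group of permutations of the coordinates.

Let `m ≥ 5` and let `G` be a group of permutations of the coordinates with the same orbits on the pairs of unordered
pairs of coordinates as the full symmetric group, for example a group which contains all even permutations or a fourfold
transitive group.  A quadratic map `φ : C^m → C^r` without nonzero real values whose real span of components is stable
under `G` exists if and only if `2 m ≤ r`.
-/

namespace Pool.Agent.Results.MP_7fdaab_ag.PermutationSymmetric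

open Pool.Agent.Lib.MP_7fdaab_ag.Heis Pool.Agent.Lib.MP_7fdaab_ag.Perm

theorem result (m r : ℕ) (hm : 5 ≤ m) (G : Subgroup (Equiv.Perm (Fin m))) :
    (PairOrbits G →
      ((∃ φ : Fin r → QuadraticForm ℂ (Fin m → ℂ),
        (∀ σ ∈ G, SpanInvariant φ (fun z i => z (σ i))) ∧ NoRealValue φ) ↔ 2 * m ≤ r)) ∧
    (alternatingGroup (Fin m) ≤ G ∨ MulAction.IsMultiplyPretransitive G (Fin m) 4 → PairOrbits G) := by
  refine ⟨mainOrb m r hm G, ?_⟩
  rintro (h | h)
  · exact (pairOrbits_alt hm).mono h
  · exact pairOrbits_of_four (by omega) h

end Pool.Agent.Results.MP_7fdaab_ag.PermutationSymmetric
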