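import Pool.Agent.Lib.MP_7fdaab_ag.Heis.Sharp

/-!
MP_7fdaab_ag, Q1 for systems which are symmetric under all changes of signs of the coordinates.

A quadratic map `φ : C^m → C^r` without nonzero real values whose real span of components is stable
under all changes of signs of coordinates exists if and only if `3 m ≤ 2 r`.
-/

namespace Pool.Agent.Results.MP_7fdaab_ag.SignSymmetric

open Pool.Agent.Lib.MP_7fdaab_ag.Heis

theorem result (m r : ℕ) :
    (∃ φ : Fin r → QuadraticForm ℂ (Fin m → ℂ), SignInvariant φ ∧ NoRealValue φ) ↔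
      3 * m ≤ 2 * r := by
  constructor
  · rintro ⟨φ, hφ, hno⟩
    exact sign_bound φ hφ hno
  · intro h
    have hr : (3 * m + 1) / 2 ≤ r := by omega
    exact ⟨pad (exSign m) r, fun e => pad_inv _ hr _ (exSign_inv m e), pad_no _ hr (exSign_no m)⟩

end Pool.Agent.Results.MP_7fdaab_ag.SignSymmetric
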