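import Pool.Agent.Lib.MP_7fdaab_ag.KP.Final

/-!
MP_7fdaab_ag, Q1: `m(r) ≤ r - 2` for every `r ≥ 4`, and `m(5) = 3`.

`NoRealValue φ` says that every nonzero vector has a component of `φ` with a value that is not real.
For `r ≥ 4` forms this forces at least two more forms than variables; for `r = 5` the largest number
of variables is three.
-/

namespace Pool.Agent.Results.MP_7fdaab_ag.UpperBound

open Pool.Agent.Lib.MP_7fdaab_ag.Heis

theorem result :
    (∀ r m : ℕ, 4 ≤ r → (∃ φ : Fin r → QuadraticForm ℂ (Fin m → ℂ), NoRealValue φ) →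
      m + 2 ≤ r) ∧
    IsGreatest {m : ℕ | ∃ φ : Fin 5 → QuadraticForm ℂ (Fin m → ℂ), NoRealValue φ} 3 :=
  Pool.Agent.Lib.MP_7fdaab_ag.KP.final

end Pool.Agent.Results.MP_7fdaab_ag.UpperBound
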